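import Pool.Agent.T9h88.IP.Final
import Pool.Agent.T9h32.FE.Iter

/-!
# Infinitely often the finite consistency of `A + Con_A` has `A`-proofs far below exponential

For all `n` the exponential upper bound for the lengths of proofs of `Con_{A + Con_A} (n)` in `A` is
known. Let `tow j a` be the number `2 ^ (2 ^ (⋯ ^ (2 ^ a)))` with `j` exponentials. We prove that for
every `b` there are a finite set `A` of sentences, containing Robinson arithmetic and any given
finite set `A₀` of true arithmetical sentences, and a number `a ≥ b` such that `A + Con_A` is true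
in an expansion of the standard model, and for infinitely many `j` the theory `A` proves all the
sentences `Con_{A + Con_A} (n)`, `n ≤ N = tow j a`, by proofs of length at most `tow j (a + 3)`. Note
that `2 ^ N = tow j (2 ^ a)`. Consequently, for every monotone function `H` on the real numbers such
that a `k`-th iterate of `H` is `2 ^ x` (for instance a half-exponential function) there is such a
theory `A` which for infinitely many `N` proves all sentences `Con_{A + Con_A} (n)`, `n ≤ N`, by
proofs of length at most `H (N)`. This is at most `H^(c + 1) (n)` if `N ≤ H^c (n)`, where `H^c` is the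
`c`-th iterate of `H`; for `c = k - 2` these `n` form a nearly exponentially long interval. So lower
bounds `exp^(1/k) (n)` for almost all `n` fail for suitable `A`, however strong `A₀` is.

The proof is a win-win argument along a chain of theories `U_0`, ..., `U_L`. The theory `U_l` says
that every theory of a higher level whose axioms of trust are true is consistent. The theory
`U_(l + 1)` has moreover an axiom of trust: for all `j`, if `U_l + Con` has no refutation of size
`tw j (b + l)`, then `U_(l + 1) + Con` has no refutation of size `tw j (b + l + 1)`; the axiom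
contains a dummy number `m` (self-reference with a parameter). If `U_(l + 1) + Con` is inconsistent
for all `m`, then the shortest refutation is a short proof in `U_l` that the axiom of trust fails at
a place `j` which tends to infinity with `m`, and this failure says that `U_l + Con` has no
refutation of size `tw j (b + l)`. Otherwise we go on with the next level. The theory `U_L` of the
last level proves the consistency of `U_0 + Con` for proofs of size `tw j b` by brute force and then
climbs up with the axioms of trust to the consistency of `U_L + Con` for proofs of size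
`tw j (b + L)`, which is more than exponential.
-/

set_option autoImplicit false

namespace Pool.Agent.Results.MP_8d3a7a_lc.FractionalExponential

open Pool.Agent.TH672 (Fm Str)
open Pool.Agent.TH636.BC

/-- The theory `A + Con_A`: the sentence `∀ x Con_A (x)` is added to the list `A` (`x` is the
variable `3`). -/
def plusCon (P : Fml) (A : List Fml) : List Fml := .all 3 (con P A) :: A

/-- The expansion of the standard model of arithmetic in which the additional predicate symbols are
interpreted by the relations `I i`. -/
def stdModel (I : ℕ → ℕ → ℕ → ℕ → ℕ → Prop) : Str ℕ where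
  M := ℕ
  ne := ⟨0⟩
  zero x := x = 0
  succ x y := y = x + 1
  add x y z := z = x + y
  mul x y z := z = x * y
  op := I

/-- All members of `A` are true in the expansion of the standard model by the relations `I i`. -/
def TrueIn (I : ℕ → ℕ → ℕ → ℕ → ℕ → Prop) (A : List Fml) : Prop :=
  ∀ ψ ∈ A, ∀ v : ℕ → ℕ, Fm.Sat (stdModel I) ψ v

/-- The list `A` consists of sentences and contains Robinson arithmetic and `A₀`, and `A + Con_A` is
true in an expansion of the standard model (and hence consistent). -/
def Fits (P : Fml) (A₀ A : List Fml) : Prop :=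
  (∀ ψ ∈ robinson ++ A₀, ψ ∈ A) ∧ (∀ ψ ∈ A, ψ.Closed) ∧ (∃ I, TrueIn I (plusCon P A)) ∧
    ∀ m, ¬ Proves (plusCon P A) m .bot

/-- The number `2 ^ (2 ^ (⋯ ^ (2 ^ a)))` with `j` exponentials. -/
def tow (j a : ℕ) : ℕ := (fun x => 2 ^ x)^[j] a

/-- There are arithmetical formulas `P` that numerate in Robinson arithmetic the relation that there
is a proof of `φ` from `Γ` of length at most `m`. Let `P` be such a formula and let `A₀` be a finite
set of true arithmetical sentences.

For every `b` there are a finite set `A` of sentences that contains Robinson arithmetic and `A₀`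
such that `A + Con_A` is true in an expansion of the standard model, and a number `a ≥ b` such that
for infinitely many `j` all sentences `Con_{A + Con_A} (n)` with `n ≤ tow j a` have proofs from `A` of
length at most `tow j (a + 3)`.

Hence for every `k` and every monotone function `H` on the real numbers whose `k`-th iterate is
`2 ^ x` there is such a set `A` such that for infinitely many `N` all sentences
`Con_{A + Con_A} (n)` with `n ≤ N` have proofs from `A` of length at most `H (N)`, which is at most
`H^(c + 1) (n)` for all `c` with `N ≤ H^c (n)` (`H^c` is the `c`-th iterate of `H`). -/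
theorem result : (∃ P : Fml, Numerates P) ∧ ∀ P : Fml, Numerates P → ∀ A₀ : List Fml,
    (∀ ψ ∈ A₀, ψ.Closed ∧ Arith ψ) → TrueIn (fun _ _ _ _ _ => False) A₀ →
    (∀ b : ℕ, ∃ A : List Fml, Fits P A₀ A ∧ ∃ a ≥ b, ∀ M : ℕ, ∃ j ≥ M, ∀ n ≤ tow j a,
      Proves A (tow j (a + 3)) (conAt P (plusCon P A) n)) ∧
    ∀ (k : ℕ) (H : ℝ → ℝ), Monotone H → (∀ x, H^[k] x = (2 : ℝ) ^ x) →
      ∃ A : List Fml, Fits P A₀ A ∧ ∀ M : ℕ, ∃ N ≥ M, ∀ n ≤ N, ∃ l : ℕ, (l : ℝ) ≤ H N ∧
        (∀ c : ℕ, (N : ℝ) ≤ H^[c] n → (l : ℝ) ≤ H^[c + 1] n) ∧
        Proves A l (conAt P (plusCon P A) n) := by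
  refine ⟨?_, fun P hP A₀ h1 h2 => ?_⟩
  · obtain ⟨P, p1, p2, p3, p4⟩ := Pool.Agent.T9h6.BC.exists_num Pool.Agent.T9h6.BC.prRel_comp
    exact ⟨P, p1, p2, p3, p4⟩
  · have key : ∀ b : ℕ, ∃ A : List Fml, Fits P A₀ A ∧ ∃ a ≥ b, ∀ M : ℕ, ∃ j ≥ M, ∀ n ≤ tow j a,
        Proves A (tow j (a + 3)) (conAt P (plusCon P A) n) := by
      intro b
      obtain ⟨A, c1, c2, c3, ⟨I, c4⟩, c5, a, c6, c7⟩ := Pool.Agent.T9h88.IP.main3 hP
        (fun ψ hψ => ⟨(h1 ψ hψ).1, (h1 ψ hψ).2, h2 ψ hψ⟩) b
      refine ⟨A, ⟨fun ψ hψ => ?_, c3, ⟨I, c4⟩, c5⟩, a, c6, fun M => ?_⟩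
      · rcases List.mem_append.1 hψ with hψ | hψ
        · exact c1 ψ hψ
        · exact c2 ψ hψ
      · obtain ⟨j, j1, j2⟩ := c7 M
        exact ⟨j, j1, j2⟩
    refine ⟨key, fun k H hH hk => ?_⟩
    obtain ⟨x₀, hx⟩ := Pool.Agent.T9h32.FE.large hH hk
    obtain ⟨A, hA, a, ha, h⟩ := key x₀
    refine ⟨A, hA, fun M => ?_⟩
    obtain ⟨j, hj, h⟩ := h M
    have e1 : ∀ i : ℕ, H (tow i a : ℕ) = (fun x : ℝ => (2 : ℝ) ^ x)^[i] (H a) := by
      intro i
      induction i with
      | zero => rfl
      | succ i ih =>
        have e : tow (i + 1) a = 2 ^ tow i a := by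
          unfold tow
          rw [Function.iterate_succ_apply']
        rw [e, Function.iterate_succ_apply', ← ih, ← Pool.Agent.T9h32.FE.comm2 hk]
        push_cast
        rw [Real.rpow_natCast]
    have e2 : ∀ (i c : ℕ) (x : ℝ), (c : ℝ) ≤ x →
        ((tow i c : ℕ) : ℝ) ≤ (fun x : ℝ => (2 : ℝ) ^ x)^[i] x := by
      intro i
      induction i with
      | zero => exact fun c x hcx => hcx
      | succ i ih =>
        intro c x hcx
        unfold tow
        rw [Function.iterate_succ_apply, Function.iterate_succ_apply]
        apply ih
        push_cast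
        rw [← Real.rpow_natCast]
        exact Real.rpow_le_rpow_of_exponent_le (by norm_num) hcx
    have e3 : ((tow j (a + 3) : ℕ) : ℝ) ≤ H (tow j a : ℕ) := by
      rw [e1]
      apply e2
      have := hx a (by exact_mod_cast ha)
      push_cast
      linarith
    refine ⟨tow j a, hj.trans (Pool.Agent.T9h84.IP.growC.2.2.2.1 j a), fun n hn =>
      ⟨tow j (a + 3), e3, fun c hc => e3.trans ?_, h n hn⟩⟩
    rw [Function.iterate_succ_apply']
    exact hH hc

end Pool.Agent.Results.MP_8d3a7a_lc.FractionalExponential
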