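import Pool.Agent.T9h6.BF.Fin
import Pool.Agent.T9h6.BF.Rel
import Pool.Agent.T9h6.BE.Up
import Pool.Agent.T9h21.BC.AxT

/-!
# Short proofs of the finite consistency of `A` with iterated reflection for proofs with few
# variables

The question asks for short proofs in `A` of the finite consistency of `A` with one axiom, `Con_A`.
Here `Con_A` is replaced by the one axiom `Con'_A` which says that `A` has no refutation with few
variables, of any length, more generally by local reflection for proofs with few variables, and
this is iterated into the transfinite.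

Let `J` be a fixed formula; `A` will prove `J (n)` for every numeral `n` by a short proof. Let `S` be
a primitive recursive set of sentences each of which is a true arithmetical sentence with its
quantifiers restricted to the elements `x` with `x ≠ x + 1` (for example Peano arithmetic on these
elements, or the empty set), let `F` be a primitive recursive set of formulas (for example `{⊥}`),
and let `≺` be a primitive recursive well-founded relation on the natural numbers. For a finite
list `Γ` of axioms let `T_i (Γ)` be the theory with the axioms `Γ`, `S` and, for all `j ≺ i` and all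
`φ` in `F`, the reflection axiom: if for some number `k` with `J (k)` and some `x` with `x ≠ x + 1`
the theory `T_j (Γ)` has a proof of `φ` of length at most `x` in which only the variables
`0`, ..., `k - 1` occur, then `φ`.

We prove that for every `i` there is a finite set `A` of sentences that contains Robinson arithmetic
such that `T_i (A)` is consistent, and there are a polynomial `p` and a number `s` such that for
every `n` the sentences `J (n)` and `Con_{T_i (A)} (n)` have proofs from `A` of length at most
`p (n)` which consist of `Σ_s` formulas.

If `≺` is empty except for `0 ≺ 1`, `i = 1`, `S = ∅` and `F = {⊥}`, then `T_i (A)` is `A` with the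
one axiom `Con'_A`: there are no numbers `k`, `x` with `J (k)` and `x ≠ x + 1` such that `A` has a
refutation of length at most `x` with the variables `0`, ..., `k - 1`.
-/

set_option autoImplicit false

namespace Pool.Agent.Results.MP_8d3a7a_lc.IteratedReflection

open Pool.Agent.TH672 (Fm)
open Pool.Agent.TH636.BC
open Pool.Agent.T9h6.BC (Num closed_Ax)
open Pool.Agent.T9h6.BD (RelTrue)
open Pool.Agent.T9h6.BF

/-- `A` has a proof of `φ` of length at most `l` which consists of `Σ_s` formulas. -/
def ProvesCx (A : List Fml) (s l : ℕ) (φ : Fml) : Prop :=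
  ∃ π : List Fml, IsProof A (φ :: π) ∧ (strs (φ :: π)).length ≤ l ∧ ∀ ψ ∈ φ :: π, Cx true s ψ

/-- Let `S` be a primitive recursive set of true arithmetical sentences with the quantifiers
restricted to the elements `x` with `x ≠ x + 1`, let `F` be a primitive recursive set of formulas and
`R` a primitive recursive well-founded relation. The relations `PRel S F R` (proofs with few
variables from the theories `T_i (Γ)`) and `TRel S F R V i` (proofs from `T_i (Γ)`) are numerated by
arithmetical formulas in Robinson arithmetic. For all numerations `V` and `P` of these relations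
there is a finite set `A` of sentences that contains Robinson arithmetic such that `T_i (A)` is
consistent, and for some number `s` and some polynomial `p` all sentences `J (n)` and
`Con_{T_i (A)} (n)` have proofs from `A` of length at most `p (n)` all of whose formulas are `Σ_s`. -/
theorem result (S F : Fml → Prop) (R : ℕ → ℕ → Prop) (i : ℕ)
    (hS : PrimrecPred fun n => ∃ ψ, S ψ ∧ n = code [ψ])
    (hF : PrimrecPred fun n => ∃ φ, F φ ∧ n = code [φ]) (hR : PrimrecRel R)
    (hS' : ∀ ψ, S ψ → RelTrue ψ) (hR' : WellFounded R) :
    (∃ V, Num (PRel S F R) V) ∧ (∀ V, ∃ P, Num (TRel S F R V i) P) ∧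
    ∀ V P : Fml, Num (PRel S F R) V → Num (TRel S F R V i) P →
      ∃ A : List Fml, (∀ ψ ∈ robinson, ψ ∈ A) ∧ (∀ ψ ∈ A, ψ.Closed) ∧
        (∀ y, ¬ ProvesI S F R V i A y Fm.bot) ∧
        ∃ (s : ℕ) (p : Polynomial ℕ), ∀ n : ℕ,
          ProvesCx A s (p.eval n) (inst 3 n J) ∧ ProvesCx A s (p.eval n) (conAt P A n) := by
  refine ⟨exists_V hS hF hR, fun V => exists_P hS hF hR V i, fun V P hV hP => ?_⟩
  refine ⟨Ax P, fun ψ hψ => by simp [Ax, TB, hψ], closed_Ax hP.free, ?_, ?_⟩
  · exact consI Pool.Agent.T9h21.BC.soundS
      (fun P hA hF m h => Pool.Agent.T9h21.BC.axS2 hA hF h) hS' hR' hV hP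
  · obtain ⟨k, C, h⟩ := Pool.Agent.T9h6.BC.upper hP.free hP.arith
    obtain ⟨k', C', h'⟩ := Pool.Agent.T9h6.BE.upperJ hP.free hP.arith
    refine ⟨max k k', Polynomial.C (C + C') * (Polynomial.X + 1) ^ 4, fun n => ⟨?_, ?_⟩⟩
    · obtain ⟨π, h1, h2, h3⟩ := h' n
      refine ⟨π, h1, h2.trans ?_, fun ψ hψ => (h3 ψ hψ).mono (le_max_right _ _)⟩
      simp only [Polynomial.eval_mul, Polynomial.eval_C, Polynomial.eval_pow, Polynomial.eval_add,
        Polynomial.eval_X, Polynomial.eval_one]
      exact Nat.mul_le_mul_right _ (Nat.le_add_left _ _)
    · obtain ⟨π, h1, h2, h3⟩ := h n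
      refine ⟨π, h1, h2.trans ?_, fun ψ hψ => (h3 ψ hψ).mono (le_max_left _ _)⟩
      simp only [Polynomial.eval_mul, Polynomial.eval_C, Polynomial.eval_pow, Polynomial.eval_add,
        Polynomial.eval_X, Polynomial.eval_one]
      exact Nat.mul_le_mul_right _ (Nat.le_add_right _ _)

end Pool.Agent.Results.MP_8d3a7a_lc.IteratedReflection
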